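import Pool.Agent.H4.FV.Stm

set_option autoImplicit false
set_option linter.unusedSectionVars false
set_option linter.unusedVariables false

/-! Semigroups with `x y z = x z`: rectangular bands with multiplicities code graphs. -/

namespace Pool.Agent.H383.FV.R

open FirstOrder FirstOrder.Language
open Pool.Agent.W889.FO
open Pool.Agent.TH686.FO
open Pool.Agent.W889.FO.StA (FD.all1 FD.ex1)
open Pool.Agent.W889.FO.StE (LG gd)
open Pool.Agent.H4.VG (LM LR op ml FT FT.var FT.mul FT.sub eqT axf)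
open Pool.Agent.H4.FV (Red engine Lf_R)
open Pool.Agent.N649.SV (KR)

section

variable {α : Type}

/-- the idempotents with two more square roots -/
def DR (μ : α → α → α) (d : α) : Prop :=
  μ d d = d ∧ ∃ x, ∃ y, x ≠ d ∧ y ≠ d ∧ x ≠ y ∧ μ x x = d ∧ μ y y = d

/-- the relation -/
def rR (μ : α → α → α) (d d' : α) : Prop :=
  DR μ d ∧ DR μ d' ∧ d ≠ d' ∧ ∃ x, x ≠ μ d d' ∧ μ x x = μ d d'

/-- the coded operations -/
structure RA (μ : α → α → α) : Prop where
  k1 : ∀ x y z, μ (μ x y) z = μ x z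
  k2 : ∀ x y z, μ x (μ y z) = μ x z
  four : ∀ e x y z, μ x x = e → μ y y = e → μ z z = e → x ≠ e → y ≠ e → z ≠ e →
    x = y ∨ x = z ∨ y = z
  le : ∀ e, μ e e = e → ∃ d, DR μ d ∧ μ d e = e ∧ ∀ d1, DR μ d1 → μ d1 e = e → d1 = d
  ri : ∀ e, μ e e = e → ∃ d, DR μ d ∧ μ e d = e ∧ ∀ d1, DR μ d1 → μ e d1 = e → d1 = d
  inf : ∀ n : ℕ, ∃ X : Fin n → α, (∀ i, DR μ (X i)) ∧ ∀ i j, i ≠ j → X i ≠ X j

open Classical in
/-- the multiplicities -/
noncomputable def mm {V : Type} (r : V → V → Prop) (i k : V) : ℕ :=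
  if i = k then 3 else if r i k then 2 else 1

theorem mm_pos {V : Type} (r : V → V → Prop) (i k : V) : 0 < mm r i k := by
  unfold mm
  split_ifs <;> norm_num

theorem mm_le {V : Type} (r : V → V → Prop) (i k : V) : mm r i k ≤ 3 := by
  unfold mm
  split_ifs <;> norm_num

theorem mm_self {V : Type} (r : V → V → Prop) (i : V) : mm r i i = 3 := by
  unfold mm
  rw [if_pos rfl]

theorem mm_two {V : Type} (r : V → V → Prop) {i k : V} (h : 2 < mm r i k) : i = k := by
  unfold mm at h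
  split_ifs at h with h1
  · exact h1
  · omega
  · omega

theorem mm_one {V : Type} (r : V → V → Prop) {i k : V} (h : 1 < mm r i k) : i = k ∨ r i k := by
  unfold mm at h
  split_ifs at h with h1 h2
  · exact Or.inl h1
  · exact Or.inr h2
  · omega

theorem mm_one' {V : Type} (r : V → V → Prop) {i k : V} (h : r i k) : 1 < mm r i k := by
  unfold mm
  split_ifs <;> norm_num

/-- coordinates -/
structure Cd (μ : α → α → α) {V : Type} (r : V → V → Prop) (l k : α → V) (t : α → ℕ) : Prop where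
  lt : ∀ x, t x < mm r (l x) (k x)
  inj : ∀ x y, l x = l y → k x = k y → t x = t y → x = y
  sur : ∀ i j s, s < mm r i j → ∃ x, l x = i ∧ k x = j ∧ t x = s
  hl : ∀ x y, l (μ x y) = l x
  hk : ∀ x y, k (μ x y) = k y
  ht : ∀ x y, t (μ x y) = 0

theorem Cd.iso {β V V' : Type} {μ : α → α → α} {μ' : β → β → β} {r : V → V → Prop}
    {r' : V' → V' → Prop} {l k : α → V} {t : α → ℕ} {l' k' : β → V'} {t' : β → ℕ}
    (h : Cd μ r l k t) (h' : Cd μ' r' l' k' t') (τ : V ≃ V') (hτ : ∀ u v, r' (τ u) (τ v) ↔ r u v) :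
    ∃ σ : α ≃ β, ∀ a b, σ (μ a b) = μ' (σ a) (σ b) := by
  have hm : ∀ u v, mm r' (τ u) (τ v) = mm r u v := by
    intro u v
    unfold mm
    by_cases h1 : u = v
    · rw [if_pos h1, if_pos (congrArg τ h1)]
    · rw [if_neg h1, if_neg (fun h2 => h1 (τ.injective h2))]
      by_cases h2 : r u v
      · rw [if_pos h2, if_pos ((hτ u v).2 h2)]
      · rw [if_neg h2, if_neg (fun h3 => h2 ((hτ u v).1 h3))]
  have hex : ∀ a : α, ∃ b : β, l' b = τ (l a) ∧ k' b = τ (k a) ∧ t' b = t a := fun a =>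
    h'.sur _ _ _ (by rw [hm]; exact h.lt a)
  choose f hf using hex
  have hb : Function.Bijective f := by
    constructor
    · intro a b hab
      obtain ⟨h1, h2, h3⟩ := hf a
      obtain ⟨h4, h5, h6⟩ := hf b
      rw [← hab] at h4 h5 h6
      exact h.inj a b (τ.injective (h1.symm.trans h4)) (τ.injective (h2.symm.trans h5))
        (h3.symm.trans h6)
    · intro b
      obtain ⟨a, h1, h2, h3⟩ := h.sur (τ.symm (l' b)) (τ.symm (k' b)) (t' b) (by
        rw [← hm, τ.apply_symm_apply, τ.apply_symm_apply]; exact h'.lt b)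
      obtain ⟨h4, h5, h6⟩ := hf a
      refine ⟨a, h'.inj _ _ ?_ ?_ ?_⟩
      · rw [h4, h1, τ.apply_symm_apply]
      · rw [h5, h2, τ.apply_symm_apply]
      · rw [h6, h3]
  refine ⟨Equiv.ofBijective f hb, fun a b => ?_⟩
  show f (μ a b) = μ' (f a) (f b)
  apply h'.inj
  · rw [(hf _).1, h.hl, h'.hl, (hf _).1]
  · rw [(hf _).2.1, h.hk, h'.hk, (hf _).2.1]
  · rw [(hf _).2.2, h.ht, h'.ht]

section

variable {V : Type} {μ : α → α → α} {r : V → V → Prop} {l k : α → V} {t : α → ℕ}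

theorem Cd.dr (h : Cd μ r l k t) (x : α) : DR μ x ↔ l x = k x ∧ t x = 0 := by
  constructor
  · rintro ⟨h1, y, z, hy, hz, hyz, h2, h3⟩
    have ht : t x = 0 := by rw [← h1]; exact h.ht x x
    have ly : l y = l x := by rw [← h2, h.hl]
    have ky : k y = k x := by rw [← h2, h.hk]
    have lz : l z = l x := by rw [← h3, h.hl]
    have kz : k z = k x := by rw [← h3, h.hk]
    have ty : t y ≠ 0 := fun e => hy (h.inj _ _ ly ky (e.trans ht.symm))
    have tz : t z ≠ 0 := fun e => hz (h.inj _ _ lz kz (e.trans ht.symm))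
    have tyz : t y ≠ t z := fun e => hyz (h.inj _ _ (ly.trans lz.symm) (ky.trans kz.symm) e)
    have m1 := h.lt y
    have m2 := h.lt z
    rw [ly, ky] at m1
    rw [lz, kz] at m2
    exact ⟨mm_two r (by omega), ht⟩
  · rintro ⟨h1, h2⟩
    have hx : μ x x = x := h.inj _ _ (h.hl x x) (h.hk x x) ((h.ht x x).trans h2.symm)
    have hs : ∀ s, s < 3 → ∃ y, l y = l x ∧ k y = k x ∧ t y = s := fun s hs => by
      refine h.sur _ _ _ ?_
      rw [h1, mm_self]
      exact hs
    obtain ⟨y, y1, y2, y3⟩ := hs 1 (by norm_num)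
    obtain ⟨z, z1, z2, z3⟩ := hs 2 (by norm_num)
    refine ⟨hx, y, z, ?_, ?_, ?_, ?_, ?_⟩
    · rintro rfl
      omega
    · rintro rfl
      omega
    · rintro rfl
      omega
    · exact h.inj _ _ ((h.hl y y).trans y1) ((h.hk y y).trans y2) ((h.ht y y).trans h2.symm)
    · exact h.inj _ _ ((h.hl z z).trans z1) ((h.hk z z).trans z2) ((h.ht z z).trans h2.symm)

theorem Cd.diag (h : Cd μ r l k t) (v : V) : ∃ x, l x = v ∧ k x = v ∧ t x = 0 :=
  h.sur v v 0 (mm_pos r v v)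

theorem Cd.ra (h : Cd μ r l k t) [Infinite V] : RA μ := by
  refine ⟨?_, ?_, ?_, ?_, ?_, ?_⟩
  · intro x y z
    apply h.inj
    · rw [h.hl, h.hl, h.hl]
    · rw [h.hk, h.hk]
    · rw [h.ht, h.ht]
  · intro x y z
    apply h.inj
    · rw [h.hl, h.hl]
    · rw [h.hk, h.hk, h.hk]
    · rw [h.ht, h.ht]
  · intro e x y z hx hy hz nx ny nz
    have key : ∀ u, μ u u = e → u ≠ e → l u = l e ∧ k u = k e ∧ t u ≠ 0 ∧ t u < 3 := by
      intro u hu nu
      have lu : l u = l e := by rw [← hu, h.hl]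
      have ku : k u = k e := by rw [← hu, h.hk]
      have te : t e = 0 := by rw [← hu, h.ht]
      refine ⟨lu, ku, fun e' => nu (h.inj _ _ lu ku (e'.trans te.symm)), ?_⟩
      exact lt_of_lt_of_le (h.lt u) (mm_le r _ _)
    obtain ⟨x1, x2, x3, x4⟩ := key x hx nx
    obtain ⟨y1, y2, y3, y4⟩ := key y hy ny
    obtain ⟨z1, z2, z3, z4⟩ := key z hz nz
    have h5 : t x = t y ∨ t x = t z ∨ t y = t z := by omega
    rcases h5 with h5 | h5 | h5
    · exact Or.inl (h.inj _ _ (x1.trans y1.symm) (x2.trans y2.symm) h5)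
    · exact Or.inr (Or.inl (h.inj _ _ (x1.trans z1.symm) (x2.trans z2.symm) h5))
    · exact Or.inr (Or.inr (h.inj _ _ (y1.trans z1.symm) (y2.trans z2.symm) h5))
  · intro e he
    have te : t e = 0 := by rw [← he]; exact h.ht e e
    obtain ⟨d, d1, d2, d3⟩ := h.diag (l e)
    refine ⟨d, (h.dr d).2 ⟨d1.trans d2.symm, d3⟩, ?_, ?_⟩
    · exact h.inj _ _ ((h.hl _ _).trans d1) (h.hk _ _) ((h.ht _ _).trans te.symm)
    · intro d' hd' he'
      obtain ⟨h1, h2⟩ := (h.dr d').1 hd'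
      have h3 : l d' = l e := by rw [← he', h.hl]
      exact h.inj _ _ (h3.trans d1.symm) (h1.symm.trans (h3.trans d2.symm)) (h2.trans d3.symm)
  · intro e he
    have te : t e = 0 := by rw [← he]; exact h.ht e e
    obtain ⟨d, d1, d2, d3⟩ := h.diag (k e)
    refine ⟨d, (h.dr d).2 ⟨d1.trans d2.symm, d3⟩, ?_, ?_⟩
    · exact h.inj _ _ (h.hl _ _) ((h.hk _ _).trans d2) ((h.ht _ _).trans te.symm)
    · intro d' hd' he'
      obtain ⟨h1, h2⟩ := (h.dr d').1 hd'
      have h3 : k d' = k e := by rw [← he', h.hk]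
      exact h.inj _ _ (h1.trans (h3.trans d1.symm)) (h3.trans d2.symm) (h2.trans d3.symm)
  · intro n
    have g : Fin n ↪ V := Fin.valEmbedding.trans (Infinite.natEmbedding V)
    choose f hf using h.diag
    refine ⟨fun i => f (g i), fun i => ?_, fun i j hij e => ?_⟩
    · exact (h.dr _).2 ⟨(hf _).1.trans (hf _).2.1.symm, (hf _).2.2⟩
    · apply hij
      apply g.injective
      rw [← (hf (g i)).1, ← (hf (g j)).1]
      exact congrArg l e

theorem Cd.code (h : Cd μ r l k t) (hr : ∀ u, ¬ r u u) :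
    ∃ π : V ≃ {x // DR μ x}, ∀ u v, rR μ (π u) (π v) ↔ r u v := by
  choose f hf using h.diag
  have hd : ∀ v, DR μ (f v) := fun v => (h.dr _).2 ⟨(hf v).1.trans (hf v).2.1.symm, (hf v).2.2⟩
  have hb : Function.Bijective (fun v => (⟨f v, hd v⟩ : {x // DR μ x})) := by
    constructor
    · intro u v huv
      have h1 : f u = f v := congrArg Subtype.val huv
      rw [← (hf u).1, ← (hf v).1, h1]
    · rintro ⟨x, hx⟩
      obtain ⟨h1, h2⟩ := (h.dr x).1 hx
      refine ⟨l x, Subtype.ext ?_⟩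
      exact h.inj _ _ (hf _).1 ((hf _).2.1.trans h1) ((hf _).2.2.trans h2.symm)
  refine ⟨Equiv.ofBijective _ hb, fun u v => ?_⟩
  show rR μ (f u) (f v) ↔ r u v
  have e1 : l (μ (f u) (f v)) = u := by rw [h.hl, (hf u).1]
  have e2 : k (μ (f u) (f v)) = v := by rw [h.hk, (hf v).2.1]
  have e3 := h.ht (f u) (f v)
  constructor
  · rintro ⟨-, -, h3, x, h4, h5⟩
    have l1 : l x = u := by rw [← e1, ← h5, h.hl]
    have k1 : k x = v := by rw [← e2, ← h5, h.hk]
    have t1 : t x ≠ 0 := fun e => h4 (h.inj _ _ (l1.trans e1.symm) (k1.trans e2.symm)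
      (e.trans e3.symm))
    have m1 := h.lt x
    rw [l1, k1] at m1
    rcases mm_one r (show 1 < mm r u v by omega) with h6 | h6
    · exact absurd (congrArg f h6) h3
    · exact h6
  · intro h1
    refine ⟨hd u, hd v, ?_, ?_⟩
    · intro e
      have h2 : u = v := by rw [← (hf u).1, ← (hf v).1, e]
      rw [h2] at h1
      exact hr v h1
    · obtain ⟨x, x1, x2, x3⟩ := h.sur u v 1 (mm_one' r h1)
      refine ⟨x, ?_, ?_⟩
      · rintro rfl
        omega
      · exact h.inj _ _ ((h.hl _ _).trans (x1.trans e1.symm)) ((h.hk _ _).trans (x2.trans e2.symm))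
          ((h.ht _ _).trans e3.symm)

end

end

/-- existence -/
theorem exists_cd (r : ℕ → ℕ → Prop) : ∃ (μ : ℕ → ℕ → ℕ) (l k : ℕ → ℕ) (t : ℕ → ℕ), Cd μ r l k t := by
  have hinf : Infinite {p : ℕ × ℕ × ℕ // p.2.2 < mm r p.1 p.2.1} :=
    Infinite.of_injective (fun n : ℕ => (⟨(n, n, 0), mm_pos r n n⟩ :
      {p : ℕ × ℕ × ℕ // p.2.2 < mm r p.1 p.2.1})) (fun a b h => by
        have := congrArg (fun q => q.1.1) h
        exact this)
  obtain ⟨e⟩ : Nonempty ({p : ℕ × ℕ × ℕ // p.2.2 < mm r p.1 p.2.1} ≃ ℕ) := nonempty_equiv_of_countable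
  refine ⟨fun x y => e ⟨((e.symm x).1.1, (e.symm y).1.2.1, 0), mm_pos r _ _⟩,
    fun x => (e.symm x).1.1, fun x => (e.symm x).1.2.1, fun x => (e.symm x).1.2.2, ?_⟩
  refine ⟨fun x => (e.symm x).2, ?_, ?_, ?_, ?_, ?_⟩
  · intro x y h1 h2 h3
    apply e.symm.injective
    apply Subtype.ext
    exact Prod.ext h1 (Prod.ext h2 h3)
  · intro i j s hs
    refine ⟨e ⟨(i, j, s), hs⟩, ?_, ?_, ?_⟩ <;> rw [e.symm_apply_apply]
  · intro x y
    show (e.symm (e _)).1.1 = _
    rw [e.symm_apply_apply]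
  · intro x y
    show (e.symm (e _)).1.2.1 = _
    rw [e.symm_apply_apply]
  · intro x y
    show (e.symm (e _)).1.2.2 = _
    rw [e.symm_apply_apply]

/-- a choice of the coordinates -/
theorem exists_lkt {μ : ℕ → ℕ → ℕ} (h : RA μ) : ∃ (l k : ℕ → {x // DR μ x}) (t : ℕ → ℕ),
    Cd μ (fun a b : {x // DR μ x} => rR μ a b) l k t := by
  classical
  have id1 : ∀ x y, μ (μ x y) (μ x y) = μ x y := fun x y => by rw [h.k1, h.k2]
  have hl : ∀ x, ∃ d, DR μ d ∧ μ d (μ x x) = μ x x ∧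
      ∀ d1, DR μ d1 → μ d1 (μ x x) = μ x x → d1 = d := fun x => h.le _ (id1 x x)
  have hk : ∀ x, ∃ d, DR μ d ∧ μ (μ x x) d = μ x x ∧
      ∀ d1, DR μ d1 → μ (μ x x) d1 = μ x x → d1 = d := fun x => h.ri _ (id1 x x)
  choose l l1 l2 l3 using hl
  choose k k1 k2 k3 using hk
  -- the square of `x` is the product of its coordinates
  have hsq : ∀ x, μ (l x) (k x) = μ x x := fun x => by
    have e1 : μ (l x) (k x) = μ (μ (l x) (μ x x)) (k x) := (h.k1 _ _ _).symm
    rw [e1, l2, k2]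
  -- the coordinates of a product of two points of the diagonal
  have hlD : ∀ i j x, DR μ i → DR μ j → μ x x = μ i j → l x = i := fun i j x hi hj hx => by
    refine (l3 x i hi ?_).symm
    rw [hx, h.k2]
  have hkD : ∀ i j x, DR μ i → DR μ j → μ x x = μ i j → k x = j := fun i j x hi hj hx => by
    refine (k3 x j hj ?_).symm
    rw [hx, h.k1]
  let mn : ℕ → Prop := fun x => ∀ y, μ y y = μ x x → y ≠ μ x x → x ≤ y
  let t : ℕ → ℕ := fun x => if x = μ x x then 0 else if mn x then 1 else 2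
  have t0 : ∀ x, x = μ x x → t x = 0 := fun x hx => if_pos hx
  have t1 : ∀ x, x ≠ μ x x → mn x → t x = 1 := fun x hx hy => (if_neg hx).trans (if_pos hy)
  have t2 : ∀ x, x ≠ μ x x → ¬ mn x → t x = 2 := fun x hx hy => (if_neg hx).trans (if_neg hy)
  -- two points besides the square
  have htwo : ∀ e x y, μ e e = e → μ x x = e → μ y y = e → x ≠ e → y ≠ e → x < y →
      t x = 1 ∧ t y = 2 := by
    intro e x y he hx hy nx ny hxy
    constructor
    · refine t1 x (by rw [hx]; exact nx) ?_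
      intro z hz1 hz2
      rw [hx] at hz1 hz2
      rcases h.four e x y z hx hy hz1 nx ny hz2 with h1 | h1 | h1
      · omega
      · omega
      · omega
    · refine t2 y (by rw [hy]; exact ny) ?_
      intro hm
      have := hm x (hx.trans hy.symm) (by rw [hy]; exact nx)
      omega
  refine ⟨fun x => ⟨l x, l1 x⟩, fun x => ⟨k x, k1 x⟩, t, ?_, ?_, ?_, ?_, ?_, ?_⟩
  · intro x
    by_cases hx : x = μ x x
    · rw [t0 x hx]
      exact mm_pos _ _ _
    · by_cases hm : mn x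
      · rw [t1 x hx hm]
        by_cases hlk : l x = k x
        · have e : (⟨l x, l1 x⟩ : {x // DR μ x}) = ⟨k x, k1 x⟩ := Subtype.ext hlk
          rw [e, mm_self]
          norm_num
        · exact mm_one' _ (show rR μ (l x) (k x) from
            ⟨l1 x, k1 x, hlk, x, by rw [hsq]; exact hx, (hsq x).symm⟩)
      · rw [t2 x hx hm]
        have hm' : ∃ y, μ y y = μ x x ∧ y ≠ μ x x ∧ y < x := by
          by_contra hcon
          apply hm
          intro y hy1 hy2
          by_contra hlt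
          exact hcon ⟨y, hy1, hy2, not_le.1 hlt⟩
        obtain ⟨y, hy1, hy2, hy3⟩ := hm'
        have hD : DR μ (μ x x) := ⟨id1 x x, x, y, hx, hy2, hy3.ne', rfl, hy1⟩
        have e1 : μ x x = l x := l3 x _ hD (id1 x x)
        have e2 : μ x x = k x := k3 x _ hD (id1 x x)
        have e : (⟨l x, l1 x⟩ : {x // DR μ x}) = ⟨k x, k1 x⟩ := Subtype.ext (e1.symm.trans e2)
        rw [e, mm_self]
        norm_num
  · intro x y hl' hk' ht'
    have el : l x = l y := congrArg Subtype.val hl'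
    have ek : k x = k y := congrArg Subtype.val hk'
    have es : μ x x = μ y y := by rw [← hsq x, ← hsq y, el, ek]
    by_cases hx : x = μ x x
    · by_cases hy : y = μ y y
      · rw [hx, hy, es]
      · exfalso
        rw [t0 x hx] at ht'
        by_cases hm : mn y
        · rw [t1 y hy hm] at ht'
          omega
        · rw [t2 y hy hm] at ht'
          omega
    · by_cases hy : y = μ y y
      · exfalso
        rw [t0 y hy] at ht'
        by_cases hm : mn x
        · rw [t1 x hx hm] at ht'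
          omega
        · rw [t2 x hx hm] at ht'
          omega
      · rcases lt_trichotomy x y with h1 | h1 | h1
        · obtain ⟨h2, h3⟩ := htwo (μ x x) x y (id1 x x) rfl es.symm hx (by rw [es]; exact hy) h1
          omega
        · exact h1
        · obtain ⟨h2, h3⟩ := htwo (μ x x) y x (id1 x x) es.symm rfl (by rw [es]; exact hy) hx h1
          omega
  · rintro ⟨i, hi⟩ ⟨j, hj⟩ s hs
    have he := id1 i j
    have hlt := lt_of_lt_of_le hs (mm_le _ _ _)
    have fin : ∀ x, μ x x = μ i j → t x = s → ∃ x, (⟨l x, l1 x⟩ : {x // DR μ x}) = ⟨i, hi⟩ ∧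
        (⟨k x, k1 x⟩ : {x // DR μ x}) = ⟨j, hj⟩ ∧ t x = s := fun x hx hts =>
      ⟨x, Subtype.ext (hlD i j x hi hj hx), Subtype.ext (hkD i j x hi hj hx), hts⟩
    -- the case of two points
    have two : i = j → ∃ x y, μ x x = μ i j ∧ μ y y = μ i j ∧ t x = 1 ∧ t y = 2 := by
      rintro rfl
      obtain ⟨hi1, x, y, nx, ny, nxy, hx, hy⟩ := hi
      rw [hi1]
      rcases lt_trichotomy x y with h1 | h1 | h1
      · obtain ⟨h2, h3⟩ := htwo i x y hi1 hx hy nx ny h1
        exact ⟨x, y, hx, hy, h2, h3⟩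
      · exact absurd h1 nxy
      · obtain ⟨h2, h3⟩ := htwo i y x hi1 hy hx ny nx h1
        exact ⟨y, x, hy, hx, h2, h3⟩
    rcases (show s = 0 ∨ s = 1 ∨ s = 2 by omega) with hs0 | hs0 | hs0
    · exact fin (μ i j) he (by rw [t0 _ he.symm, hs0])
    · rw [hs0] at hs
      rcases mm_one _ hs with h1 | h1
      · obtain ⟨x, y, hx, hy, tx, ty⟩ := two (congrArg Subtype.val h1)
        exact fin x hx (tx.trans hs0.symm)
      · by_cases hij : i = j
        · obtain ⟨x, y, hx, hy, tx, ty⟩ := two hij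
          exact fin x hx (tx.trans hs0.symm)
        · have hex : ∃ x, x ≠ μ i j ∧ μ x x = μ i j := h1.2.2.2
          obtain ⟨f1, f2⟩ := Nat.find_spec hex
          refine fin (Nat.find hex) f2 ?_
          rw [hs0]
          refine t1 _ (by rw [f2]; exact f1) ?_
          intro y hy1 hy2
          rw [f2] at hy1 hy2
          exact Nat.find_min' hex ⟨hy2, hy1⟩
    · rw [hs0] at hs
      obtain ⟨x, y, hx, hy, tx, ty⟩ := two (congrArg Subtype.val (mm_two _ hs))
      exact fin y hy (ty.trans hs0.symm)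
  · intro x y
    apply Subtype.ext
    show l (μ x y) = l x
    refine (l3 (μ x y) (l x) (l1 x) ?_).symm
    rw [id1]
    have e1 : μ x y = μ (l x) y := by
      have e2 : μ x y = μ (μ x x) y := (h.k1 _ _ _).symm
      rw [e2, ← l2 x, h.k1]
    have e3 : μ (l x) (μ x y) = μ (l x) y := h.k2 _ _ _
    rw [e3, e1]
  · intro x y
    apply Subtype.ext
    show k (μ x y) = k y
    refine (k3 (μ x y) (k y) (k1 y) ?_).symm
    rw [id1]
    have e1 : μ x y = μ x (k y) := by
      have e2 : μ x y = μ x (μ y y) := (h.k2 _ _ _).symm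
      rw [e2, ← k2 y, h.k2]
    have e3 : μ (μ x y) (k y) = μ x (k y) := h.k1 _ _ _
    rw [e3, e1]
  · intro x y
    exact t0 _ (id1 x y).symm

/-! the first-order definitions -/

section

variable {β : Type} {p q : LR.Structure ℕ → (β → ℕ) → ℕ}

theorem fd_dr (hp : FT p) : FD Pool.Agent.W889.FO.St0.W (fun S v => DR (ml S) (p S v)) :=
  (eqT (hp.mul hp) hp).and <|
    FD.ex1 (P := fun S v x => ∃ y, x ≠ p S v ∧ y ≠ p S v ∧ x ≠ y ∧ ml S x x = p S v ∧
      ml S y y = p S v) <|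
    FD.ex1 (P := fun S w y => w (Sum.inr ()) ≠ p S (fun i => w (Sum.inl i)) ∧
      y ≠ p S (fun i => w (Sum.inl i)) ∧ w (Sum.inr ()) ≠ y ∧
      ml S (w (Sum.inr ())) (w (Sum.inr ())) = p S (fun i => w (Sum.inl i)) ∧
      ml S y y = p S (fun i => w (Sum.inl i))) <|
    have hq := hp.sub (fun i : β => (Sum.inl (Sum.inl i) : (β ⊕ Unit) ⊕ Unit))
    (eqT (FT.var _) hq).not.and <| (eqT (FT.var _) hq).not.and <|
    (eqT (FT.var _) (FT.var _)).not.and <|
    (eqT ((FT.var _).mul (FT.var _)) hq).and (eqT ((FT.var _).mul (FT.var _)) hq)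

theorem fd_rr (hp : FT p) (hq : FT q) :
    FD Pool.Agent.W889.FO.St0.W (fun S v => rR (ml S) (p S v) (q S v)) :=
  (fd_dr hp).and <| (fd_dr hq).and <| (eqT hp hq).not.and <|
    FD.ex1 (P := fun S v x => x ≠ ml S (p S v) (q S v) ∧ ml S x x = ml S (p S v) (q S v)) <|
    have h := (hp.mul hq).sub (fun i : β => (Sum.inl i : β ⊕ Unit))
    (eqT (FT.var _) h).not.and (eqT ((FT.var _).mul (FT.var _)) h)

end

theorem ax_RA : Ax (fun S : LR.Structure ℕ => Pool.Agent.W889.FO.St0.W S ∧ RA (ml S)) := by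
  have h1 := axf (P := fun S => ∀ x y z, ml S (ml S x y) z = ml S x z) <|
    FD.all1 (P := fun S _ x => ∀ y z, ml S (ml S x y) z = ml S x z) <|
    FD.all1 (P := fun S w y => ∀ z, ml S (ml S (w (Sum.inr ())) y) z = ml S (w (Sum.inr ())) z) <|
    FD.all1 (P := fun S w z => ml S (ml S (w (Sum.inl (Sum.inr ()))) (w (Sum.inr ()))) z =
      ml S (w (Sum.inl (Sum.inr ()))) z) <|
    eqT (((FT.var _).mul (FT.var _)).mul (FT.var _)) ((FT.var _).mul (FT.var _))
  have h2 := axf (P := fun S => ∀ x y z, ml S x (ml S y z) = ml S x z) <|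
    FD.all1 (P := fun S _ x => ∀ y z, ml S x (ml S y z) = ml S x z) <|
    FD.all1 (P := fun S w y => ∀ z, ml S (w (Sum.inr ())) (ml S y z) = ml S (w (Sum.inr ())) z) <|
    FD.all1 (P := fun S w z => ml S (w (Sum.inl (Sum.inr ()))) (ml S (w (Sum.inr ())) z) =
      ml S (w (Sum.inl (Sum.inr ()))) z) <|
    eqT ((FT.var _).mul ((FT.var _).mul (FT.var _))) ((FT.var _).mul (FT.var _))
  have h3 := axf (P := fun S => ∀ w : Fin 4 → ℕ, ml S (w 1) (w 1) = w 0 → ml S (w 2) (w 2) = w 0 →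
      ml S (w 3) (w 3) = w 0 → w 1 ≠ w 0 → w 2 ≠ w 0 → w 3 ≠ w 0 →
      w 1 = w 2 ∨ w 1 = w 3 ∨ w 2 = w 3) <|
    FD.all (P := fun S _ (w : Fin 4 → ℕ) => ml S (w 1) (w 1) = w 0 → ml S (w 2) (w 2) = w 0 →
      ml S (w 3) (w 3) = w 0 → w 1 ≠ w 0 → w 2 ≠ w 0 → w 3 ≠ w 0 →
      w 1 = w 2 ∨ w 1 = w 3 ∨ w 2 = w 3) <|
    (eqT ((FT.var _).mul (FT.var _)) (FT.var _)).imp <|
    (eqT ((FT.var _).mul (FT.var _)) (FT.var _)).imp <|
    (eqT ((FT.var _).mul (FT.var _)) (FT.var _)).imp <|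
    (eqT (FT.var _) (FT.var _)).not.imp <| (eqT (FT.var _) (FT.var _)).not.imp <|
    (eqT (FT.var _) (FT.var _)).not.imp <|
    (eqT (FT.var _) (FT.var _)).or <| (eqT (FT.var _) (FT.var _)).or (eqT (FT.var _) (FT.var _))
  have h4 := axf (P := fun S => ∀ e, ml S e e = e → ∃ d, DR (ml S) d ∧ ml S d e = e ∧
      ∀ d1, DR (ml S) d1 → ml S d1 e = e → d1 = d) <|
    FD.all1 (P := fun S _ e => ml S e e = e → ∃ d, DR (ml S) d ∧ ml S d e = e ∧
      ∀ d1, DR (ml S) d1 → ml S d1 e = e → d1 = d) <|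
    (eqT ((FT.var _).mul (FT.var _)) (FT.var _)).imp <|
    FD.ex1 (P := fun S w d => DR (ml S) d ∧ ml S d (w (Sum.inr ())) = w (Sum.inr ()) ∧
      ∀ d1, DR (ml S) d1 → ml S d1 (w (Sum.inr ())) = w (Sum.inr ()) → d1 = d) <|
    (fd_dr (FT.var _)).and <| (eqT ((FT.var _).mul (FT.var _)) (FT.var _)).and <|
    FD.all1 (P := fun S w d1 => DR (ml S) d1 → ml S d1 (w (Sum.inl (Sum.inr ()))) =
      w (Sum.inl (Sum.inr ())) → d1 = w (Sum.inr ())) <|
    (fd_dr (FT.var _)).imp <| (eqT ((FT.var _).mul (FT.var _)) (FT.var _)).imp <|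
    eqT (FT.var _) (FT.var _)
  have h5 := axf (P := fun S => ∀ e, ml S e e = e → ∃ d, DR (ml S) d ∧ ml S e d = e ∧
      ∀ d1, DR (ml S) d1 → ml S e d1 = e → d1 = d) <|
    FD.all1 (P := fun S _ e => ml S e e = e → ∃ d, DR (ml S) d ∧ ml S e d = e ∧
      ∀ d1, DR (ml S) d1 → ml S e d1 = e → d1 = d) <|
    (eqT ((FT.var _).mul (FT.var _)) (FT.var _)).imp <|
    FD.ex1 (P := fun S w d => DR (ml S) d ∧ ml S (w (Sum.inr ())) d = w (Sum.inr ()) ∧
      ∀ d1, DR (ml S) d1 → ml S (w (Sum.inr ())) d1 = w (Sum.inr ()) → d1 = d) <|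
    (fd_dr (FT.var _)).and <| (eqT ((FT.var _).mul (FT.var _)) (FT.var _)).and <|
    FD.all1 (P := fun S w d1 => DR (ml S) d1 → ml S (w (Sum.inl (Sum.inr ()))) d1 =
      w (Sum.inl (Sum.inr ())) → d1 = w (Sum.inr ())) <|
    (fd_dr (FT.var _)).imp <| (eqT ((FT.var _).mul (FT.var _)) (FT.var _)).imp <|
    eqT (FT.var _) (FT.var _)
  have h6 := Ax.all fun n : ℕ => axf (P := fun S => ∃ X : Fin n → ℕ, (∀ i, DR (ml S) (X i)) ∧
      ∀ i j, i ≠ j → X i ≠ X j) <|
    FD.ex (P := fun S _ X => (∀ i, DR (ml S) (X i)) ∧ ∀ i j, i ≠ j → X i ≠ X j) <|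
    (FD.fin fun i => fd_dr (FT.var _)).and <|
    FD.fin fun i => FD.fin fun j => (FD.const (i ≠ j)).imp (eqT (FT.var _) (FT.var _)).not
  refine (h1.and (h2.and (h3.and (h4.and (h5.and h6))))).congr fun S => ?_
  constructor
  · rintro ⟨k1, k2, k3, k4, k5, k6⟩
    exact ⟨k1.1, k1.2, k2.2, fun e x y z => k3.2 ![e, x, y, z], k4.2, k5.2, fun n => (k6 n).2⟩
  · rintro ⟨hW, k⟩
    exact ⟨⟨hW, k.k1⟩, ⟨hW, k.k2⟩, ⟨hW, fun w => k.four (w 0) (w 1) (w 2) (w 3)⟩, ⟨hW, k.le⟩,
      ⟨hW, k.ri⟩, fun n => ⟨hW, k.inf n⟩⟩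

/-- R. -/
theorem leaf_R : Lf_R := by
  refine engine (K := fun μ => KR μ) (fun μ => RA μ) (fun μ x => DR μ x) (fun μ x y => rR μ x y)
    ax_RA (fd_dr (FT.var ())) (fd_rr (FT.var 0) (FT.var 1)) ?_ ?_ ?_ ?_
  · intro μ h N
    by_contra hcon
    push Not at hcon
    obtain ⟨X, h1, h2⟩ := h.inf (N + 1)
    have h3 : ∀ i, X i < N := fun i => by
      by_contra hlt
      exact hcon (X i) (not_lt.1 hlt) (h1 i)
    have h5 : Function.Injective fun i => (⟨X i, h3 i⟩ : Fin N) := by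
      intro i j hij
      by_contra hne
      exact h2 i j hne (congrArg Fin.val hij)
    have h6 := Fintype.card_le_of_injective _ h5
    rw [Fintype.card_fin, Fintype.card_fin] at h6
    omega
  · intro μ μ' h h' τ hτ
    obtain ⟨l, k, t, hc⟩ := exists_lkt h
    obtain ⟨l', k', t', hc'⟩ := exists_lkt h'
    exact hc.iso hc' τ hτ
  · intro M hM
    obtain ⟨μ, l, k, t, hc⟩ := exists_cd (gd M)
    exact ⟨μ, hc.ra, hc.code hM.sd.irrefl⟩
  · intro μ h
    exact ⟨h.k1, h.k2⟩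

end Pool.Agent.H383.FV.R
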